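import Pool.Agent.H12.FIN.Defs
import Pool.Agent.H12.KS.K53
import Pool.Agent.H12.KS.K57

/-!
Density of the stable sets of periodic points of area preserving diffeomorphisms of closed surfaces without the
hypothesis on KAM circles (answer to Q1 of MP_8a27c0_an).
-/

namespace Pool.Agent.Results.MP_8a27c0_an.DenseStableSets

open StableSets Function
open scoped Manifold ContDiff

/-- For every closed surface `S` (given with a uniformisation) and every `C^r` diffeomorphism `f` of `S`, `1 ≤ r`,
preserving an area form, having a periodic point and satisfying the conditions 1, 2 and 4, the union of the stable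
sets of the periodic points is dense. -/
theorem result (S : Type) [MetricSpace S] [ChartedSpace ℂ S] [IsManifold 𝓘(ℝ, ℂ) ∞ S]
    [CompactSpace S] (hS : Uniformised S) (r : WithTop ℕ∞) (hr : 1 ≤ r)
    (f : Diffeomorph 𝓘(ℝ, ℂ) 𝓘(ℝ, ℂ) S S r)
    (om : ∀ x : S, TangentSpace 𝓘(ℝ, ℂ) x →ₗ[ℝ] TangentSpace 𝓘(ℝ, ℂ) x →ₗ[ℝ] ℝ)
    (hom : IsAreaForm om) (hf : PreservesArea om f) (hper : (periodicPts f).Nonempty)
    (h1 : Cond1 f) (h2 : Cond2 f f.symm) (h4 : Cond4 f) :
    Dense (⋃ P ∈ periodicPts f, stableSet f P) :=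
  transport BR.main S hS r hr f om hom hf hper h1 h2 h4

end Pool.Agent.Results.MP_8a27c0_an.DenseStableSets
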